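import Pool.Agent.Lib.MP_1ad17e_al_h4.Three
import Pool.Agent.Lib.MP_1ad17e_al_h97.ThmA

/-!
MP_1ad17e_al, section 4: Lemma X, in abstract form.
-/

set_option autoImplicit false

namespace E1adH16

open scoped commutatorElement
open Subgroup E1adH4 E1adH97

section

variable {G : Type*} [Group G]

/-- the elements of order at most two of `γ_(m+1)(X)` which are central in `X` -/
def VV (X : Subgroup G) (m : ℕ) : Subgroup G where
  carrier := {e | e ∈ X.lowerCentralSeries m ∧ e * e = 1 ∧ ∀ t ∈ X, e * t = t * e}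
  one_mem' := ⟨one_mem _, one_mul _, fun t _ => by rw [one_mul, mul_one]⟩
  mul_mem' := by
    rintro x y ⟨hx, hx2, hxc⟩ ⟨hy, hy2, hyc⟩
    have hle : X.lowerCentralSeries m ≤ X := by
      have h := Subgroup.lowerCentralSeries_antitone X (Nat.zero_le m)
      rwa [Subgroup.lowerCentralSeries_zero] at h
    refine ⟨mul_mem hx hy, ?_, ?_⟩
    · calc x * y * (x * y) = x * (y * x) * y := by group
        _ = x * (x * y) * y := by rw [hyc x (hle hx)]
        _ = (x * x) * (y * y) := by group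
        _ = 1 := by rw [hx2, hy2, one_mul]
    · intro t ht
      rw [mul_assoc, hyc t ht, ← mul_assoc, hxc t ht, mul_assoc]
  inv_mem' := by
    rintro x ⟨hx, hx2, hxc⟩
    refine ⟨inv_mem hx, ?_, ?_⟩
    · rw [← mul_inv_rev, hx2, inv_one]
    · intro t ht
      have := hxc t ht
      calc x⁻¹ * t = x⁻¹ * (t * x) * x⁻¹ := by group
        _ = x⁻¹ * (x * t) * x⁻¹ := by rw [this]
        _ = t * x⁻¹ := by group

theorem norm_iff {X : Subgroup G} {g : G} (hg : g ∈ normalizer (X : Set G)) (z : G) :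
    z ∈ X ↔ g * z * g⁻¹ ∈ X := mem_normalizer_iff.1 hg z

theorem VV_conj {X : Subgroup G} {m : ℕ} {g : G} (hg : g ∈ normalizer (X : Set G)) {e : G}
    (he : e ∈ VV X m) : g * e * g⁻¹ ∈ VV X m := by
  obtain ⟨h1, h2, h3⟩ := he
  refine ⟨lcs_conj (norm_iff hg) m h1, ?_, ?_⟩
  · calc g * e * g⁻¹ * (g * e * g⁻¹) = g * (e * e) * g⁻¹ := by group
      _ = 1 := by rw [h2]; group
  · intro t ht
    have ht' : g⁻¹ * t * g ∈ X := by
      rw [norm_iff hg]
      have e : g * (g⁻¹ * t * g) * g⁻¹ = t := by group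
      rwa [e]
    calc g * e * g⁻¹ * t = g * (e * (g⁻¹ * t * g)) * g⁻¹ := by group
      _ = g * ((g⁻¹ * t * g) * e) * g⁻¹ := by rw [h3 _ ht']
      _ = t * (g * e * g⁻¹) := by group

/-- the commutators of the conjugates of `y` with the involution `w` -/
theorem comm_VV {X S : Subgroup G} (hXS : X ≤ S) {n m j : ℕ} (hSn : S.lowerCentralSeries n = ⊥)
    (hn : n ≤ m + j) (hj : 1 ≤ j) {y q w p x : G} (hy : y * y = 1) (hyX : y ∈ X)
    (hyc : ∀ z ∈ X, z * y = y * z) (hq : q ∈ X) (hqy : q ^ (2 ^ m) = y) (hw : w * w = 1)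
    (hwS : w ∈ S) (hwN : w ∈ normalizer (X : Set G)) (hp : p ∈ X) (hx : x ∈ S)
    (hxL : (⟨x, hx⟩ : S) ∈ Lam S j) (he : w = p * x) {g : G} (hg : g ∈ normalizer (X : Set G)) :
    ⁅g * y * g⁻¹, w⁆ ∈ VV X m := by
  have hcen : ∀ g ∈ normalizer (X : Set G), ∀ t ∈ X, g * y * g⁻¹ * t = t * (g * y * g⁻¹) := by
    intro g hg t ht
    have ht' : g⁻¹ * t * g ∈ X := by
      rw [norm_iff hg]
      have e : g * (g⁻¹ * t * g) * g⁻¹ = t := by group
      rwa [e]
    calc g * y * g⁻¹ * t = g * (y * (g⁻¹ * t * g)) * g⁻¹ := by group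
      _ = g * ((g⁻¹ * t * g) * y) * g⁻¹ := by rw [hyc _ ht']
      _ = t * (g * y * g⁻¹) := by group
  have hyi : y⁻¹ = y := inv_eq_of_mul_eq_one_left hy
  have hcomm : ⁅g * y * g⁻¹, w⁆ = (g * y * g⁻¹) * ((w * g) * y * (w * g)⁻¹) := by
    rw [commutatorElement_def]
    calc g * y * g⁻¹ * w * (g * y * g⁻¹)⁻¹ * w⁻¹ = (g * y * g⁻¹) * ((w * g) * y⁻¹ * (w * g)⁻¹) := by
          group
      _ = _ := by rw [hyi]
  have hwg : w * g ∈ normalizer (X : Set G) := mul_mem hwN hg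
  have hu1 : g * y * g⁻¹ ∈ X := (norm_iff hg y).1 hyX
  have hu2 : (w * g) * y * (w * g)⁻¹ ∈ X := (norm_iff hwg y).1 hyX
  refine ⟨?_, ?_, ?_⟩
  · have hqg : g * q * g⁻¹ ∈ X := (norm_iff hg q).1 hq
    have hSn' := top_lcs_bot hSn
    have h1 := core (H := S) (P := X.subgroupOf S) (τ := ⟨w, hwS⟩) (s := ⟨p, hXS hp⟩) (x := ⟨x, hx⟩)
      (q := ⟨g * q * g⁻¹, hXS hqg⟩) (i := j) hj (Subtype.ext hw)
      (fun z hz => mem_subgroupOf.2 ((norm_iff hwN _).1 (mem_subgroupOf.1 hz)))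
      (mem_subgroupOf.2 hp) hxL (Subtype.ext he) (mem_subgroupOf.2 hqg) m
    have hKS : KS (normalClosure {(⟨w, hwS⟩ : S)}) (m + j) = ⊥ := by
      rw [eq_bot_iff, ← hSn']
      exact (KS_le_lcs' (m := 0) le_top _).trans
        (Subgroup.lowerCentralSeries_antitone (⊤ : Subgroup S) (show n ≤ 0 + (m + j) by omega))
    rw [hKS, sup_bot_eq] at h1
    have h2 := lcs_subtype hXS m h1
    have e : ((⁅(⟨g * q * g⁻¹, hXS hqg⟩ : S) ^ (2 ^ m), (⟨w, hwS⟩ : S)⁆ : S) : G) =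
        ⁅g * y * g⁻¹, w⁆ := by
      have e1 : ((⁅(⟨g * q * g⁻¹, hXS hqg⟩ : S) ^ (2 ^ m), (⟨w, hwS⟩ : S)⁆ : S) : G) =
        ⁅(g * q * g⁻¹) ^ (2 ^ m), w⁆ := rfl
      rw [e1, conj_pow, hqy]
    rwa [e] at h2
  · rw [hcomm]
    have h3 := hcen g hg _ hu2
    have h4 : (g * y * g⁻¹) * (g * y * g⁻¹) = 1 := by
      calc g * y * g⁻¹ * (g * y * g⁻¹) = g * (y * y) * g⁻¹ := by group
        _ = 1 := by rw [hy]; group
    have h5 : ((w * g) * y * (w * g)⁻¹) * ((w * g) * y * (w * g)⁻¹) = 1 := by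
      calc (w * g) * y * (w * g)⁻¹ * ((w * g) * y * (w * g)⁻¹) = (w * g) * (y * y) * (w * g)⁻¹ := by
            group
        _ = 1 := by rw [hy]; group
    set a := g * y * g⁻¹
    set b := (w * g) * y * (w * g)⁻¹
    calc a * b * (a * b) = a * b * (b * a) := by rw [h3]
      _ = a * (b * b) * a := by group
      _ = 1 := by rw [h5, mul_one, h4]
  · intro t ht
    rw [hcomm]
    have h3 := hcen g hg t ht
    have h4 := hcen (w * g) hwg t ht
    rw [mul_assoc, h4, ← mul_assoc, h3, mul_assoc]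

/-- an element of `VV` commutes with the elements of `X` and with the elements of depth `j` -/
theorem VV_comm {X S : Subgroup G} (hXS : X ≤ S) {n m j : ℕ} (hSn : S.lowerCentralSeries n = ⊥)
    (hn : n ≤ m + j) {p x : G} (hp : p ∈ X) (hx : x ∈ S) (hxL : (⟨x, hx⟩ : S) ∈ Lam S j) {e : G}
    (he : e ∈ VV X m) : e * (p * x) = p * x * e := by
  obtain ⟨h1, h2, h3⟩ := he
  have hle : X.lowerCentralSeries m ≤ X := by
    have h := Subgroup.lowerCentralSeries_antitone X (Nat.zero_le m)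
    rwa [Subgroup.lowerCentralSeries_zero] at h
  have heS : e ∈ S := hXS (hle h1)
  have h4 := comm_Lam (top_lcs_bot hSn) hn (z := (⟨e, heS⟩ : S)) (Subtype.ext h2)
    (lcs_top_of_lcs hXS m heS h1) hxL
  have h5 : e * x = x * e := congrArg Subtype.val h4
  rw [← mul_assoc, h3 p hp, mul_assoc, h5, mul_assoc]

/-- Lemma X, the case where a conjugate of `v` is an element of depth `j` modulo `X` -/
theorem odd_case {X S : Subgroup G} (hXS : X ≤ S) {n m j : ℕ} (hSn : S.lowerCentralSeries n = ⊥)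
    (hn : n ≤ m + j) (hj : 1 ≤ j) {y q v s w g p x : G} (hy : y * y = 1) (hyX : y ∈ X)
    (hSy : ∀ z ∈ S, z * y = y * z) (hq : q ∈ X) (hqy : q ^ (2 ^ m) = y) (hv : v * v = 1)
    (hvN : v ∈ normalizer (X : Set G)) (hsS : s ∈ S) (hsN : s ∈ normalizer (X : Set G))
    (hg : g ∈ X ⊔ closure {s, v}) (hw : w = g * v * g⁻¹)
    (hwS : w ∈ S) (hp : p ∈ X) (hx : x ∈ S)
    (hxL : (⟨x, hx⟩ : S) ∈ Lam S j) (he : w = p * x) : v * y = y * v := by
  have hle : X ⊔ closure {s, v} ≤ normalizer (X : Set G) := by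
    refine sup_le le_normalizer ((closure_le _).2 ?_)
    rintro z (rfl | rfl)
    · exact hsN
    · exact hvN
  have hgN := hle hg
  have hwN : w ∈ normalizer (X : Set G) := by
    rw [hw]
    exact mul_mem (mul_mem hgN hvN) (inv_mem hgN)
  have hw2 : w * w = 1 := by
    rw [hw]
    calc g * v * g⁻¹ * (g * v * g⁻¹) = g * (v * v) * g⁻¹ := by group
      _ = 1 := by rw [hv]; group
  have hwi : w⁻¹ = w := inv_eq_of_mul_eq_one_left hw2
  have hyi : y⁻¹ = y := inv_eq_of_mul_eq_one_left hy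
  have hyc : ∀ z ∈ X, z * y = y * z := fun z hz => hSy z (hXS hz)
  have hcV : ∀ {g : G}, g ∈ normalizer (X : Set G) → ⁅g * y * g⁻¹, w⁆ ∈ VV X m := fun hg =>
    comm_VV hXS hSn hn hj hy hyX hyc hq hqy hw2 hwS hwN hp hx hxL he hg
  -- the conjugates of `y`
  have hmulP : ∀ a b : G, a ∈ normalizer (X : Set G) → y * (a * y * a⁻¹) ∈ VV X m →
      y * (b * y * b⁻¹) ∈ VV X m → y * (a * b * y * (a * b)⁻¹) ∈ VV X m := by
    intro a b ha hya hyb
    have e : y * (a * b * y * (a * b)⁻¹) = (y * (a * y * a⁻¹)) * (a * (y * (b * y * b⁻¹)) * a⁻¹) := by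
      calc y * (a * b * y * (a * b)⁻¹) = y * a * (1 * (b * y * b⁻¹)) * a⁻¹ := by group
        _ = y * a * ((y * y) * (b * y * b⁻¹)) * a⁻¹ := by rw [hy]
        _ = _ := by group
    rw [e]
    exact mul_mem hya (VV_conj ha hyb)
  have hinvP : ∀ a : G, a ∈ normalizer (X : Set G) → y * (a * y * a⁻¹) ∈ VV X m →
      y * (a⁻¹ * y * a⁻¹⁻¹) ∈ VV X m := by
    intro a ha hya
    have h1 := VV_conj (inv_mem ha) (inv_mem hya)
    have e : a⁻¹ * (y * (a * y * a⁻¹))⁻¹ * a⁻¹⁻¹ = y * (a⁻¹ * y * a⁻¹⁻¹) := by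
      calc a⁻¹ * (y * (a * y * a⁻¹))⁻¹ * a⁻¹⁻¹ = y⁻¹ * (a⁻¹ * y⁻¹ * a⁻¹⁻¹) := by group
        _ = _ := by rw [hyi]
    rwa [e] at h1
  have hvP : y * (v * y * v⁻¹) ∈ VV X m := by
    have h1 := VV_conj (inv_mem hgN) (hcV hgN)
    have e : g⁻¹ * ⁅g * y * g⁻¹, w⁆ * g⁻¹⁻¹ = y * (v * y * v⁻¹) := by
      rw [commutatorElement_def, hw]
      calc g⁻¹ * (g * y * g⁻¹ * (g * v * g⁻¹) * (g * y * g⁻¹)⁻¹ * (g * v * g⁻¹)⁻¹) * g⁻¹⁻¹ =
          y * (v * y⁻¹ * v⁻¹) := by group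
        _ = _ := by rw [hyi]
    rwa [e] at h1
  have hSP : ∀ z ∈ S, y * (z * y * z⁻¹) ∈ VV X m := by
    intro z hz
    have e : y * (z * y * z⁻¹) = 1 := by
      rw [hSy z hz, mul_inv_cancel_right, hy]
    rw [e]
    exact one_mem _
  have key : ∀ h ∈ X ⊔ closure {s, v}, h ∈ normalizer (X : Set G) ∧ y * (h * y * h⁻¹) ∈ VV X m := by
    have hclo : X ⊔ closure {s, v} = closure ((X : Set G) ∪ {s, v}) := by
      rw [Subgroup.closure_union, closure_eq]
    rw [hclo]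
    intro h hh
    refine closure_induction (p := fun h _ => h ∈ normalizer (X : Set G) ∧
      y * (h * y * h⁻¹) ∈ VV X m) ?_ ?_ ?_ ?_ hh
    · rintro z (hz | rfl | rfl)
      · exact ⟨le_normalizer hz, hSP z (hXS hz)⟩
      · exact ⟨hsN, hSP _ hsS⟩
      · exact ⟨hvN, hvP⟩
    · refine ⟨one_mem _, ?_⟩
      rw [one_mul, inv_one, mul_one, hy]
      exact one_mem _
    · rintro a b - - ⟨ha, hya⟩ ⟨hb, hyb⟩
      exact ⟨mul_mem ha hb, hmulP a b ha hya hyb⟩
    · rintro a - ⟨ha, hya⟩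
      exact ⟨inv_mem ha, hinvP a ha hya⟩
  have h1 := VV_comm hXS hSn hn hp hx hxL (key g hg).2
  rw [← he] at h1
  have h2 : w * y = y * w := hSy w hwS
  have h3 : w * (g * y * g⁻¹) = (g * y * g⁻¹) * w := by
    have e1 : g * y * g⁻¹ = y * (y * (g * y * g⁻¹)) := by rw [← mul_assoc, hy, one_mul]
    rw [e1]
    calc w * (y * (y * (g * y * g⁻¹))) = (w * y) * (y * (g * y * g⁻¹)) := by group
      _ = y * (w * (y * (g * y * g⁻¹))) := by rw [h2]; group
      _ = y * ((y * (g * y * g⁻¹)) * w) := by rw [h1]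
      _ = y * (y * (g * y * g⁻¹)) * w := by group
  calc v * y = g⁻¹ * ((g * v * g⁻¹) * (g * y * g⁻¹)) * g := by group
    _ = g⁻¹ * (w * (g * y * g⁻¹)) * g := by rw [hw]
    _ = g⁻¹ * ((g * y * g⁻¹) * w) * g := by rw [h3]
    _ = g⁻¹ * ((g * y * g⁻¹) * (g * v * g⁻¹)) * g := by rw [hw]
    _ = y * v := by group

end

section

variable {G : Type*} [Group G] [Finite G]

/-- **Lemma X**, abstract form. -/
theorem lemmaX (N X S : Subgroup G) {y r v : G} {n k : ℕ} (hnk : n ≤ k) (hS : IsPGroup 2 S)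
    (hSn : S.lowerCentralSeries n = ⊥) (hXS : X < S) (hSy : ∀ z ∈ S, z * y = y * z) (hr : r ∈ S)
    (hry : r ^ (2 ^ k) = y) (hy : y * y = 1) (hyX : y ∈ X) (hN : normalizer (X : Set G) ≤ N)
    (hvN : v ∈ normalizer (X : Set G)) (hv : v * v = 1)
    (hM : ∀ E B : Subgroup G, IsPGroup 2 B → B ≤ N → E ≤ B → X < E → (∀ z ∈ E, z * y = y * z) →
      ∀ w ∈ B, w * w = 1 → w * y = y * w) : v * y = y * v := by
  classical
  -- the choice of `j`
  obtain ⟨j, m, q, x₀, hj, hn, hq, hqy, hx₀S, hx₀X, hx₀L⟩ : ∃ (j m : ℕ) (q x₀ : G), 1 ≤ j ∧ n ≤ m + j ∧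
      q ∈ X ∧ q ^ (2 ^ m) = y ∧ ∃ h : x₀ ∈ S, x₀ ∉ X ∧ (⟨x₀, h⟩ : S) ∈ Lam S j := by
    by_cases hrX : r ∈ X
    · obtain ⟨x₀, hx₀S, hx₀X⟩ := SetLike.exists_of_lt hXS
      refine ⟨1, k, r, x₀, le_rfl, by omega, hrX, hry, hx₀S, hx₀X, ?_⟩
      have := pow_mem_Lam (⟨x₀, hx₀S⟩ : S) 0
      rwa [pow_zero, pow_one] at this
    · have hex : ∃ i, r ^ (2 ^ i) ∈ X := ⟨k, by rw [hry]; exact hyX⟩
      have hik : Nat.find hex ≤ k := Nat.find_min' hex (by rw [hry]; exact hyX)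
      have hi0 : Nat.find hex ≠ 0 := by
        intro h0
        have := Nat.find_spec hex
        rw [h0, pow_zero, pow_one] at this
        exact hrX this
      obtain ⟨i, hi⟩ := Nat.exists_eq_succ_of_ne_zero hi0
      refine ⟨i + 1, k - (i + 1), r ^ (2 ^ (i + 1)), r ^ (2 ^ i), by omega, by omega, ?_, ?_,
        pow_mem hr _, Nat.find_min hex (by omega), ?_⟩
      · have := Nat.find_spec hex
        rwa [hi] at this
      · rw [← pow_mul, ← pow_add, ← hry]
        congr 2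
        omega
      · exact pow_mem_Lam (⟨r, hr⟩ : S) i
  -- the element `s`
  obtain ⟨s, hsS, hsX, hs2, hsn, hsL⟩ : ∃ s ∈ S, s ∉ X ∧ s * s ∈ X ∧ (∀ z ∈ X, s * z * s⁻¹ ∈ X) ∧
      ∀ h : s ∈ S, (⟨s, h⟩ : S) ∈ X.subgroupOf S ⊔ Lam S j := by
    have hlt : X.subgroupOf S < X.subgroupOf S ⊔ Lam S j := by
      refine lt_of_le_of_ne le_sup_left ?_
      intro h
      have h2 : (⟨x₀, hx₀S⟩ : S) ∈ X.subgroupOf S := by
        rw [h]
        exact mem_sup_right hx₀L
      exact hx₀X (mem_subgroupOf.1 h2)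
    obtain ⟨t, ht1, ht2, ht3, ht4⟩ := exists_t hS hlt
    refine ⟨t, t.2, fun h => ht2 (mem_subgroupOf.2 h), mem_subgroupOf.1 ht3, ?_, fun _ => ht1⟩
    intro z hz
    exact mem_subgroupOf.1 (ht4 ⟨z, hXS.le hz⟩ (mem_subgroupOf.2 hz))
  have hsN : s ∈ normalizer (X : Set G) := by
    rw [mem_normalizer_iff]
    intro z
    refine ⟨fun hz => hsn z hz, fun hz => ?_⟩
    have h1 := hsn _ hz
    have h2 := mul_mem (mul_mem (inv_mem hs2) h1) hs2
    have e : (s * s)⁻¹ * (s * (s * z * s⁻¹) * s⁻¹) * (s * s) = z := by group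
    rwa [e] at h2
  set D : Subgroup G := X ⊔ closure {s, v} with hD
  have hDN : D ≤ normalizer (X : Set G) := by
    refine sup_le le_normalizer ((closure_le _).2 ?_)
    rintro z (rfl | rfl)
    · exact hsN
    · exact hvN
  have hsD : s ∈ D := mem_sup_right (subset_closure (Or.inl rfl))
  have hvD : v ∈ D := mem_sup_right (subset_closure (Or.inr rfl))
  have hXD : X ≤ D := le_sup_left
  obtain ⟨hQ, -⟩ := pgroup_sup hS hXS.le hsS hsX
  obtain ⟨P, hP, hQP, hPD, hPc⟩ := exists_syl D (X ⊔ zpowers s) hQ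
    (sup_le hXD (by rw [zpowers_le]; exact hsD))
  obtain ⟨g, hg, hgv⟩ := hPc (zpowers v) (pgrp_of_pow (m := 1) (by rw [pow_one, pow_two, hv]))
    (by rw [zpowers_le]; exact hvD)
  obtain ⟨w, hw⟩ : ∃ w, w = g * v * g⁻¹ := ⟨_, rfl⟩
  have hwP : w ∈ P := by
    rw [hw]
    exact hgv v (mem_zpowers v)
  have hw2 : w * w = 1 := by
    rw [hw]
    calc g * v * g⁻¹ * (g * v * g⁻¹) = g * (v * v) * g⁻¹ := by group
      _ = 1 := by rw [hv]; group
  have hsP : s ∈ P := hQP (mem_sup_right (mem_zpowers s))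
  have hXP : X ≤ P := le_sup_left.trans hQP
  have hlt : X < X ⊔ zpowers s := by
    refine lt_of_le_of_ne le_sup_left ?_
    intro h
    apply hsX
    rw [h]
    exact mem_sup_right (mem_zpowers s)
  have hEy : ∀ z ∈ X ⊔ zpowers s, z * y = y * z := by
    intro z hz
    exact hSy z ((sup_le hXS.le (by rw [zpowers_le]; exact hsS) : X ⊔ zpowers s ≤ S) hz)
  have hwy : w * y = y * w := hM _ P hP (hPD.trans (hDN.trans hN)) hQP hlt hEy w hwP hw2
  by_cases hwsX : w * s ∈ X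
  · -- `w` lies in `X s`
    have hwS : w ∈ S := by
      have e : w = (w * s) * s⁻¹ := by group
      rw [e]
      exact mul_mem (hXS.le hwsX) (inv_mem hsS)
    have hwL : (⟨w, hwS⟩ : S) ∈ X.subgroupOf S ⊔ Lam S j := by
      have e : (⟨w, hwS⟩ : S) = ⟨w * s, hXS.le hwsX⟩ * ⟨s, hsS⟩⁻¹ := by
        apply Subtype.ext
        change w = w * s * s⁻¹
        group
      rw [e]
      exact mul_mem (mem_sup_left (mem_subgroupOf.2 hwsX)) (inv_mem (hsL hsS))
    obtain ⟨p, hp, x, hx, hpx⟩ := (mem_sup_of_normal_right).1 hwL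
    exact odd_case hXS.le hSn hn hj hy hyX hSy hq hqy hv hvN hsS hsN hg hw hwS
      (mem_subgroupOf.1 hp) x.2 hx (congrArg Subtype.val hpx).symm
  · -- an involution of the quotient which commutes with `v`
    set Nm := normalizer (X : Set G) with hNm
    have hXN : X ≤ Nm := le_normalizer
    set π : Nm →* Nm ⧸ X.subgroupOf Nm := QuotientGroup.mk' (X.subgroupOf Nm) with hπ
    have hπ1 : ∀ z : Nm, π z = 1 ↔ (z : G) ∈ X := by
      intro z
      rw [hπ, QuotientGroup.mk'_apply, QuotientGroup.eq_one_iff]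
      exact mem_subgroupOf
    set B := π ⟨v, hvN⟩ with hB
    set t' := π ⟨s, hsN⟩ with ht'
    have hBB : B * B = 1 := by
      rw [hB, ← map_mul, hπ1]
      change v * v ∈ X
      rw [hv]
      exact one_mem _
    have htt : t' * t' = 1 := by
      rw [ht', ← map_mul, hπ1]
      exact hs2
    have hDle : D ≤ ((closure {B, t'}).comap π).map Nm.subtype := by
      refine sup_le ?_ ((closure_le _).2 ?_)
      · intro z hz
        refine ⟨⟨z, hXN hz⟩, ?_, rfl⟩
        change π ⟨z, hXN hz⟩ ∈ closure {B, t'}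
        rw [(hπ1 _).2 hz]
        exact one_mem _
      · rintro z (rfl | rfl)
        · exact ⟨⟨z, hsN⟩, subset_closure (Or.inr rfl), rfl⟩
        · exact ⟨⟨z, hvN⟩, subset_closure (Or.inl rfl), rfl⟩
    obtain ⟨g', hg'1, hg'2⟩ := hDle hg
    have hg'c : π g' ∈ closure {B, t'} := hg'1
    have hg'v : (g' : G) = g := hg'2
    have hgN : g ∈ Nm := hDN hg
    have hwN : w ∈ Nm := by
      rw [hw]
      exact mul_mem (mul_mem hgN hvN) (inv_mem hgN)
    have hBi : B⁻¹ = B := inv_eq_of_mul_eq_one_left hBB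
    have hti : t'⁻¹ = t' := inv_eq_of_mul_eq_one_left htt
    have hpow : ∀ i : ℕ, v * (w * s) ^ i * v⁻¹ * (w * s) ^ i ∈ X := by
      intro i
      obtain ⟨l, hl⟩ := dihedral hBB htt hg'c
      have h1 : π ⟨w, hwN⟩ = (B * t') ^ l * B := by
        rw [← hl]
        have e : (⟨w, hwN⟩ : Nm) = g' * ⟨v, hvN⟩ * g'⁻¹ := by
          apply Subtype.ext
          change w = (g' : G) * v * (g' : G)⁻¹
          rw [hg'v, hw]
        rw [e, map_mul, map_mul, map_inv]
      have h2 : B * (B * t') * B⁻¹ = (B * t')⁻¹ := by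
        rw [mul_inv_rev, hBi, hti]
        calc B * (B * t') * B = (B * B) * t' * B := by group
          _ = t' * B := by rw [hBB, one_mul]
      have h3 : π (⟨w, hwN⟩ * ⟨s, hsN⟩) = (B * t') ^ (l + 1) := by
        rw [map_mul, h1, zpow_add_one, ← ht', mul_assoc]
      have h4 : π (⟨v, hvN⟩ * (⟨w, hwN⟩ * ⟨s, hsN⟩) ^ i * ⟨v, hvN⟩⁻¹ * (⟨w, hwN⟩ * ⟨s, hsN⟩) ^ i) = 1 := by
        rw [map_mul, map_mul, map_mul π ⟨v, hvN⟩, map_inv, map_pow, h3, ← hB, ← conj_pow, ← conj_zpow,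
          h2, inv_zpow, inv_pow, inv_mul_cancel]
      exact (hπ1 _).1 h4
    have hwsP : w * s ∈ P := mul_mem hwP hsP
    have hwsN : w * s ∈ Nm := mul_mem hwN hsN
    have hwsy : w * s * y = y * (w * s) := by
      have h1 : s * y = y * s := hSy s hsS
      calc w * s * y = w * (s * y) := by group
        _ = (w * y) * s := by rw [h1]; group
        _ = y * (w * s) := by rw [hwy]; group
    have hex : ∃ i, (w * s) ^ (2 ^ i) ∈ X := by
      obtain ⟨a, ha⟩ := hP ⟨w * s, hwsP⟩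
      refine ⟨a, ?_⟩
      have h1 : (w * s) ^ (2 ^ a) = 1 := congrArg Subtype.val ha
      rw [h1]
      exact one_mem _
    have hi0 : Nat.find hex ≠ 0 := by
      intro h0
      have := Nat.find_spec hex
      rw [h0, pow_zero, pow_one] at this
      exact hwsX this
    obtain ⟨i, hi⟩ := Nat.exists_eq_succ_of_ne_zero hi0
    obtain ⟨τ, hτ⟩ : ∃ τ, τ = (w * s) ^ (2 ^ i) := ⟨_, rfl⟩
    have hτX : τ ∉ X := by
      rw [hτ]
      exact Nat.find_min hex (by omega)
    have hτP : τ ∈ P := by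
      rw [hτ]
      exact pow_mem hwsP _
    have hτN : τ ∈ Nm := by
      rw [hτ]
      exact pow_mem hwsN _
    have hτ2 : τ * τ ∈ X := by
      have := Nat.find_spec hex
      rw [hi, Nat.succ_eq_add_one, pow_succ, pow_mul, pow_two, ← hτ] at this
      exact this
    have hτy : τ * y = y * τ := by
      rw [hτ]
      exact ((show Commute (w * s) y from hwsy).pow_left _).eq
    have hvτ : v * τ * v⁻¹ * τ ∈ X := by
      rw [hτ]
      exact hpow _
    obtain ⟨hE, -⟩ := pgroup_sup hP hXP hτP hτX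
    have hXE : X < X ⊔ zpowers τ := by
      refine lt_of_le_of_ne le_sup_left ?_
      intro h
      apply hτX
      rw [h]
      exact mem_sup_right (mem_zpowers τ)
    have hτE : τ ∈ X ⊔ zpowers τ := mem_sup_right (mem_zpowers τ)
    have hvE : ∀ z ∈ X ⊔ zpowers τ, v * z * v⁻¹ ∈ X ⊔ zpowers τ := by
      have hle : X ⊔ zpowers τ ≤ (X ⊔ zpowers τ).comap (MulAut.conj v).toMonoidHom := by
        refine sup_le ?_ ?_
        · intro z hz
          exact mem_sup_left ((norm_iff hvN z).1 hz)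
        · rw [zpowers_le, mem_comap]
          change v * τ * v⁻¹ ∈ X ⊔ zpowers τ
          have e : v * τ * v⁻¹ = (v * τ * v⁻¹ * τ) * τ⁻¹ := by group
          rw [e]
          exact mul_mem (mem_sup_left hvτ) (inv_mem hτE)
      intro z hz
      exact hle hz
    have hvi : v⁻¹ = v := inv_eq_of_mul_eq_one_left hv
    have hvnE : v ∈ normalizer ((X ⊔ zpowers τ : Subgroup G) : Set G) := by
      rw [mem_normalizer_iff]
      intro z
      refine ⟨fun hz => hvE z hz, fun hz => ?_⟩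
      have h1 := hvE _ hz
      have e : v * (v * z * v⁻¹) * v⁻¹ = z := by
        rw [hvi]
        calc v * (v * z * v) * v = (v * v) * z * (v * v) := by group
          _ = z := by rw [hv]; group
      rwa [e] at h1
    have hBd : IsPGroup 2 (zpowers v ⊔ (X ⊔ zpowers τ) : Subgroup G) := by
      refine (pgrp_of_pow (m := 1) (by rw [pow_one, pow_two, hv])).to_sup_of_normal_right' hE ?_
      rw [zpowers_le]
      exact hvnE
    refine hM (X ⊔ zpowers τ) (zpowers v ⊔ (X ⊔ zpowers τ)) hBd ?_ le_sup_right hXE ?_ v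
      (mem_sup_left (mem_zpowers v)) hv
    · refine le_trans (sup_le ?_ (sup_le hXN ?_)) hN
      · rw [zpowers_le]
        exact hvN
      · rw [zpowers_le]
        exact hτN
    · intro z hz
      have h4 : X ⊔ zpowers τ ≤ centralizer {y} := by
        refine sup_le ?_ ?_
        · intro x hx
          exact mem_centralizer_singleton_iff.2 (hSy x (hXS.le hx))
        · rw [zpowers_le]
          exact mem_centralizer_singleton_iff.2 hτy
      exact mem_centralizer_singleton_iff.1 (h4 hz)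

end

end E1adH16
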